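import Pool.Agent.Y148.OP.Inj2

/-!
# Injectivity of the cycle maps of open varieties and numerical equivalence

Let `k` be a finite field (the proof works over every field for which the statements make sense),
`K = ℚ_ℓ`.  For smooth *projective* varieties the case `i = 2j` of Beilinson's injectivity
conjecture says that rational equivalence agrees with homological equivalence (and that
`ℚ`-independent classes stay `ℚ_ℓ`-independent).  For all smooth varieties it says much more:

**Theorem.** Equivalent are:

1. for all smooth varieties `V` the map `CH^j(V) ⊗ ℚ_ℓ → H^(2j)(V, ℚ_ℓ(j))` is injective for all `j`;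
2. the map `CH^j(V_x)_ℚ → H^(2j)(V_x, ℚ_ℓ(j))` is injective for all `j` for the varieties `V_x`
   below;
3. rational and homological equivalence (with `ℚ`-coefficients) agree on all smooth projective
   varieties, and the class of a point of `Y` vanishes in `CH(V_x)` if it vanishes in the cohomology
   of `V_x`;
4. rational and numerical equivalence agree on all smooth projective varieties.

Moreover, if zero-cycles of degree zero are torsion (which holds over finite fields), then
Grothendieck's standard conjecture D (numerical equivalence is homological equivalence) is
equivalent to the second half of 3: points are detected on all `V_x`.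

In particular Beilinson's injectivity conjecture Q1, already in its case `i = 2j`, with
`ℚ`-coefficients and for the `V_x`, implies Grothendieck's standard conjecture D for `ℓ`-adic
cohomology (its injectivity on projective varieties alone is not known to do so); conversely the
conjecture that rational and numerical equivalence agree on smooth projective varieties implies Q1
in the case `i = 2j` for all smooth varieties.

## The varieties

Let `x ∈ CH^c(Y)`, `Y` smooth projective.  A multiple `N x` is `ch(E) - ch(E')` in `CH(Y)_ℚ` for
vector bundles `E`, `E'` of the same rank if `c > 0`, and `V_x → Y` is the bundle of the isomorphisms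
`E → E'`; then `CH(V_x)_ℚ = CH(Y)_ℚ / x CH(Y)_ℚ` and the image of `H(Y)` in `H(V_x)` is
`H(Y) / x H(Y)`.  (For `x` in `CH^0(Y)` there is nothing to do: take `V_x` empty or `Y`.)  This is
the content of `InjectiveModulo`.

In general a smooth quasi-projective variety `V` is, up to alterations (which do not change the
question, by a trace argument), the complement in a smooth projective variety `Y` of a closed
subset, which is the union of the images of morphisms `Z_a → Y` from smooth projective varieties;
`CH(V)_ℚ = CH(Y)_ℚ / ∑ CH(Z_a)_ℚ` by localization, and for reasons of weights the kernel of
`H^(2j)(Y) → H^(2j)(V)` is the sum of the images of the `H(Z_a)`.  `CycleMapInjective` is the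
injectivity of `CH(V) ⊗ ℚ_ℓ → H(V)` in this form; we allow arbitrary correspondences `γ_a` from `Z_a`
to `Y`, so that the `V_x` are also included (`γ = Δ_* x`).  So Q1 in the case `i = 2j` is contained in
statement 1 and contains statement 2 of the theorem below.

## The proof

2 → 3 is clear.  3 → 4: let `x` be numerically trivial with class different from zero.  By Poincare
duality the class of a point is in `x H(Y)`; so the point is `x z` for a cycle `z`, which contradicts
that `x z` has degree zero.  4 → 1: by the argument of Jannsen the rings of self-correspondences
`CH(X × X)_ℚ` are semisimple (they are finite-dimensional by 4); so every correspondence is regular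
in the sense of von Neumann, and there is a projector `e = ∑ γ_a g_a` with `e γ_a = γ_a` for all `a`.
If `Σ λ_j cl(y_j) ∈ ∑ γ_a H(Z_a)`, then it is fixed by `e`, so `Σ λ_j cl(y_j - e y_j) = 0`, and the
`y_j - e y_j` are linearly independent over `ℚ` if the `y_j` are linearly independent modulo
`∑ γ_a CH(Z_a)`; linearly independent cycles have linearly independent classes by 4.
-/

open CategoryTheory AlgebraicGeometry

universe u v w

namespace Pool.Agent.Results.MP_b52861_ag.InjectivityOnOpenVarieties

open Pool.Agent.H914 Pool.Agent.W492.BB Pool.Agent.TH133 Pool.Agent.Y148.OP

/-- Injectivity of the cycle maps of open varieties is equivalent to the equality of rational and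
numerical equivalence on projective varieties. -/
theorem result {k : Type u} [Field k] {𝒱 : VarClass k}
    (C : TheoryData.{u, v, 0} 𝒱 ℚ) [IsChowProj C] {K : Type w} [Field K]
    (H : WeilTheoryData.{u, v, w} C K) [IsWeilProj H] (hcomm : GradedCommutative H)
    (hfin : ∀ Y : 𝒱.Obj, FiniteDimensional K (H.A Y)) :
    List.TFAE [InjectiveOnAll H, InjectiveOnBundles H, PointsDetected H ∧ RatIsHom H, RatIsNum C] ∧
      (ZeroCyclesTorsion C → (PointsDetected H ↔ NumIsHom H)) :=
  ⟨inj_main hcomm hfin, fun hpt => ⟨fun h Y c x hx hN => hom_of_points hx (h Y c x hx) hN,
    fun h Y c x hx => points_of_D hpt hx (h Y c x hx)⟩⟩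

end Pool.Agent.Results.MP_b52861_ag.InjectivityOnOpenVarieties
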