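import Pool.Agent.Y101.Th.TBMain

/-!
# Injectivity of the regulators over finite fields and trilinear forms
-/

set_option autoImplicit false

open CategoryTheory AlgebraicGeometry Pool.Agent.Y116.UV Pool.Agent.Y101.Th

namespace Pool.Agent.Results.MP_b52861_ag.TrilinearForms

variable {k Ω : Type} [Field k] [Field Ω] [CharZero Ω] {T : Homology k Ω}

/-- **Beilinson's conjecture for higher Chow groups and trilinear forms.** Let `k` be a finite field.
For each `d`, the conjecture of Tate and Beilinson (injectivity, surjectivity onto the invariants,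
semisimplicity of the eigenvalue one) is true for the smooth projective schemes of dimension at most
`d` if and only if it is true for the smooth affine cubic hypersurfaces `t(x, y, z) = 1` for all
trilinear forms `t` one of whose blocks of variables has at most `d + 2` variables; then the
regulators of all smooth schemes of dimension at most `d` are injective. The regulators are injective
and surjective onto the invariants for all smooth schemes if and only if the conjecture is true for
the hypersurfaces `t(x, y, z) = 1` for all `t`. The regulators of `t(x, y, z) = 1` are injective if one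
of the blocks of variables of `t` has at most three variables. -/
theorem result [Finite k] (hT : IsHomology T) (hK : TBKnown T) :
    (∀ d : ℕ,
      ((∀ X : Sch k, SmProj X → topologicalKrullDim X.left ≤ d → TB T X) ↔
        ∀ (a b c : ℕ) (t : Fin a → Fin b → Fin c → k), (a ≤ d + 2 ∨ b ≤ d + 2 ∨ c ≤ d + 2) →
          TB T (hypS t)) ∧
      ((∀ (a b c : ℕ) (t : Fin a → Fin b → Fin c → k), (a ≤ d + 2 ∨ b ≤ d + 2 ∨ c ≤ d + 2) →
          TB T (hypS t)) →
        ∀ X : Sch k, FT True X → topologicalKrullDim X.left ≤ d → OneToOne T X)) ∧
    ((∀ X : Sch k, FT True X → Smooth X.hom → OneToOne T X ∧ Onto T X) ↔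
      ∀ (a b c : ℕ) (t : Fin a → Fin b → Fin c → k), TB T (hypS t)) ∧
    ∀ (a b c : ℕ) (t : Fin a → Fin b → Fin c → k), (a ≤ 3 ∨ b ≤ 3 ∨ c ≤ 3) →
      OneToOne T (hypS t) := by
  have hP := bnd_tb hT
  refine ⟨fun d => ⟨tb_dim hT hK d, fun h X hX hd => one_of_tb ((gen_dim hP d).mpr h X hX hd)⟩,
    ⟨fun h => (tb_smproj hT hK).mp (hK.surjectivity fun X hX hs => (h X hX hs).2),
    fun h X hX _ => ?_⟩, fun a b c t hm => one_of_tb (gen_curves hP hK.curves a b c t hm)⟩
  have h1 := (gen_all hP.toUni).mpr h X hX
  exact ⟨one_of_tb h1, onto_of_tb h1⟩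

end Pool.Agent.Results.MP_b52861_ag.TrilinearForms
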